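import Pool.Agent.TH308.RD.Defs

set_option autoImplicit false

/-!
Global submean inequality for `U` (circle averages, any radius), for MP_cebbdc_an.
-/

namespace Pool.Agent.TH304.RD

open MeasureTheory Set Complex Filter Topology Pool.Agent.TH308.RD InnerProductSpace

/-- maximum principle on a disc -/
lemma maxprin {z : ℂ} {r : ℝ} {Φ : ℂ → ℝ} (hΦ : Continuous Φ)
    (h : ∀ w ∈ Metric.closedBall z r, Φ w ≤ 0 ∨ (dist w z < r ∧ HarmonicAt Φ w)) :
    ∀ w ∈ Metric.closedBall z r, Φ w ≤ 0 := by
  intro w1 hw1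
  by_contra hcon
  push Not at hcon
  have hr : 0 ≤ r := le_trans dist_nonneg (Metric.mem_closedBall.1 hw1)
  set R : ℝ := ‖z‖ + r with hR
  have hRn : ∀ w ∈ Metric.closedBall z r, ‖w‖ ≤ R := by
    intro w hw
    have h1 : ‖w - z‖ ≤ r := by
      rw [← dist_eq_norm]; exact Metric.mem_closedBall.1 hw
    have : ‖w‖ ≤ ‖z‖ + ‖w - z‖ := by
      have := norm_add_le z (w - z)
      simpa using this
    linarith
  have hR0 : 0 ≤ R := by positivity
  set c : ℝ := Φ w1 / (2 * (R ^ 2 + 1)) with hc
  have hc0 : 0 < c := by positivity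
  have hcR : c * R ^ 2 < Φ w1 := by
    rw [hc, div_mul_eq_mul_div, div_lt_iff₀ (by positivity)]
    nlinarith [sq_nonneg R]
  have hcont : Continuous (fun w : ℂ => Φ w + c * ‖w‖ ^ 2) := by fun_prop
  obtain ⟨w, hw, hmax⟩ := (isCompact_closedBall z r).exists_isMaxOn ⟨w1, hw1⟩ hcont.continuousOn
  have hmax' : ∀ v ∈ Metric.closedBall z r, Φ v + c * ‖v‖ ^ 2 ≤ Φ w + c * ‖w‖ ^ 2 :=
    fun v hv => hmax hv
  have hΦw : 0 < Φ w := by
    have h1 := hmax' w1 hw1
    have h2 : c * ‖w‖ ^ 2 ≤ c * R ^ 2 := by
      have := hRn w hw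
      gcongr
    have h3 : 0 ≤ c * ‖w1‖ ^ 2 := by positivity
    linarith
  rcases h w hw with h1 | ⟨h1, h2⟩
  · linarith
  · -- harmonic on a small closed ball
    obtain ⟨ε, hε, hball⟩ := Metric.eventually_nhds_iff.1 h2.eventually
    set s : ℝ := min (ε / 2) (r - dist w z) with hs
    have hs0 : 0 < s := by
      rw [hs]; apply lt_min
      · linarith
      · linarith
    have hsub : Metric.closedBall w s ⊆ Metric.closedBall z r := by
      intro v hv
      have h3 : dist v w ≤ s := Metric.mem_closedBall.1 hv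
      have h4 : s ≤ r - dist w z := min_le_right _ _
      have h5 := dist_triangle v w z
      exact Metric.mem_closedBall.2 (by linarith)
    have hharm : HarmonicOnNhd Φ (Metric.closedBall w |s|) := by
      intro v hv
      rw [abs_of_pos hs0] at hv
      apply hball
      have h3 : dist v w ≤ s := Metric.mem_closedBall.1 hv
      have h4 : s ≤ ε / 2 := min_le_left _ _
      linarith
    have hav : Real.circleAverage Φ w s = Φ w := hharm.circleAverage_eq
    -- comparison function
    set G : ℂ → ℝ := fun v => (Φ w + c * ‖w‖ ^ 2) - c * (s ^ 2 - ‖w‖ ^ 2)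
      - 2 * c * (((starRingEnd ℂ) w * v).re) with hG
    have hGharm : HarmonicOnNhd G (Metric.closedBall w |s|) := by
      intro v _
      have e1 : HarmonicAt (fun v : ℂ => (((((Φ w + c * ‖w‖ ^ 2) - c * (s ^ 2 - ‖w‖ ^ 2) : ℝ) : ℂ) -
        2 * (c : ℂ) * ((starRingEnd ℂ) w * v))).re) v := by
        apply AnalyticAt.harmonicAt_re
        fun_prop
      convert! e1 using 1
      funext v
      simp only [hG]
      have e2 : (2 * (c : ℂ) * ((starRingEnd ℂ) w * v)).re = 2 * c * (((starRingEnd ℂ) w * v).re) := by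
        have : (2 * (c : ℂ)) = ((2 * c : ℝ) : ℂ) := by push_cast; ring
        rw [this, Complex.re_ofReal_mul]
      rw [Complex.sub_re, e2, Complex.ofReal_re]
    have hGav : Real.circleAverage G w s = G w := hGharm.circleAverage_eq
    have hGcont : Continuous G := by
      rw [hG]; fun_prop
    have hle : Real.circleAverage Φ w s ≤ Real.circleAverage G w s := by
      apply Real.circleAverage_mono
      · exact hΦ.continuousOn.circleIntegrable'
      · exact hGcont.continuousOn.circleIntegrable'
      · intro v hv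
        rw [abs_of_pos hs0] at hv
        have h3 := hmax' v (hsub (Metric.sphere_subset_closedBall hv))
        have h4 : ‖v - w‖ = s := by
          rw [← dist_eq_norm]; exact Metric.mem_sphere.1 hv
        have h5 : ‖v - w‖ ^ 2 = ‖v‖ ^ 2 + ‖w‖ ^ 2 - 2 * (((starRingEnd ℂ) w * v).re) := by
          simp only [← Complex.normSq_eq_norm_sq, Complex.normSq_apply]
          simp
          ring
        have h6 : ‖v‖ ^ 2 = s ^ 2 - ‖w‖ ^ 2 + 2 * (((starRingEnd ℂ) w * v).re) := by
          rw [h4] at h5; linarith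
        rw [h6] at h3
        simp only [hG]
        linarith
    rw [hav, hGav] at hle
    have h7 : ((starRingEnd ℂ) w * w).re = ‖w‖ ^ 2 := by
      rw [← Complex.normSq_eq_norm_sq, Complex.normSq_apply]
      simp
    simp only [hG] at hle
    rw [h7] at hle
    have : 0 < c * s ^ 2 := by positivity
    linarith

/-- trigonometric polynomials extend to harmonic functions -/
lemma trig_ext (z : ℂ) {r : ℝ} (hr : 0 < r) [Fact (0 < 2 * Real.pi)]
    (f : C(AddCircle (2 * Real.pi), ℂ))
    (hf : f ∈ Submodule.span ℂ (range (@fourier (2 * Real.pi)))) :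
    ∀ c : ℂ, ∃ H : ℂ → ℝ, (∀ w, HarmonicAt H w) ∧
      ∀ t : AddCircle (2 * Real.pi), H (z + r * (AddCircle.toCircle t : ℂ)) = (c * f t).re := by
  have hr' : (r : ℂ) ≠ 0 := by exact_mod_cast hr.ne'
  induction hf using Submodule.span_induction with
  | mem x hx =>
    obtain ⟨n, rfl⟩ := hx
    intro c
    rcases le_or_gt 0 n with hn | hn
    · obtain ⟨m, rfl⟩ := Int.eq_ofNat_of_zero_le hn
      refine ⟨fun w => (c * ((w - z) / r) ^ m).re, ?_, ?_⟩
      · intro w
        apply AnalyticAt.harmonicAt_re
        fun_prop (disch := assumption)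
      · intro t
        have e1 : (z + r * (AddCircle.toCircle t : ℂ) - z) / r = (AddCircle.toCircle t : ℂ) := by
          field_simp
          ring
        show (c * ((z + r * (AddCircle.toCircle t : ℂ) - z) / r) ^ m).re = _
        rw [e1, fourier_apply, AddCircle.toCircle_zsmul]
        simp
    · obtain ⟨m, rfl⟩ : ∃ m : ℕ, n = -(m : ℤ) := ⟨n.natAbs, by omega⟩
      refine ⟨fun w => ((starRingEnd ℂ) c * ((w - z) / r) ^ m).re, ?_, ?_⟩
      · intro w
        apply AnalyticAt.harmonicAt_re
        fun_prop (disch := assumption)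
      · intro t
        have e1 : (z + r * (AddCircle.toCircle t : ℂ) - z) / r = (AddCircle.toCircle t : ℂ) := by
          field_simp
          ring
        show ((starRingEnd ℂ) c * ((z + r * (AddCircle.toCircle t : ℂ) - z) / r) ^ m).re = _
        rw [e1, fourier_apply, AddCircle.toCircle_zsmul]
        have e2 : (c * (((AddCircle.toCircle t) ^ (-(m : ℤ)) : Circle) : ℂ)) =
            (starRingEnd ℂ) ((starRingEnd ℂ) c * (AddCircle.toCircle t : ℂ) ^ m) := by
          rw [zpow_neg, zpow_natCast]
          rw [Circle.coe_inv_eq_conj]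
          simp
        rw [e2, Complex.conj_re]
  | zero =>
    intro c
    refine ⟨fun _ => 0, fun w => harmonicAt_const 0, fun t => by simp⟩
  | add x y hx hy ihx ihy =>
    intro c
    obtain ⟨H1, h1, h1'⟩ := ihx c
    obtain ⟨H2, h2, h2'⟩ := ihy c
    refine ⟨H1 + H2, fun w => (h1 w).add (h2 w), fun t => ?_⟩
    rw [Pi.add_apply, h1' t, h2' t, ContinuousMap.add_apply, mul_add, Complex.add_re]
  | smul a x hx ih =>
    intro c
    obtain ⟨H1, h1, h1'⟩ := ih (c * a)
    refine ⟨H1, h1, fun t => ?_⟩
    rw [h1' t, ContinuousMap.smul_apply, smul_eq_mul, mul_assoc]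

/-- approximate solution of the Dirichlet problem on a disc -/
lemma approx_dirichlet {U : ℂ → ℝ} (hU : Continuous U) (z : ℂ) {r : ℝ} (hr : 0 < r) {e : ℝ}
    (he : 0 < e) : ∃ H : ℂ → ℝ, (∀ w, HarmonicAt H w) ∧
      ∀ w ∈ Metric.sphere z r, |H w - U w| ≤ e := by
  have : Fact (0 < 2 * Real.pi) := ⟨by positivity⟩
  set g : C(AddCircle (2 * Real.pi), ℂ) :=
    ⟨fun t => ((U (z + r * (AddCircle.toCircle t : ℂ)) : ℝ) : ℂ), by
      have : Continuous (fun t : AddCircle (2 * Real.pi) => (AddCircle.toCircle t : ℂ)) :=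
        continuous_subtype_val.comp AddCircle.continuous_toCircle
      fun_prop⟩ with hg
  have hmem : g ∈ (Submodule.span ℂ (range (@fourier (2 * Real.pi)))).topologicalClosure := by
    rw [span_fourier_closure_eq_top]; trivial
  obtain ⟨f, hf, hfg⟩ := Metric.mem_closure_iff.1 hmem e he
  obtain ⟨H, h1, h2⟩ := trig_ext z hr f hf 1
  refine ⟨H, h1, ?_⟩
  intro w hw
  -- w = z + r * toCircle t
  have hnorm : ‖(w - z) / (r : ℂ)‖ = 1 := by
    rw [norm_div, ← dist_eq_norm, Metric.mem_sphere.1 hw]
    simp [abs_of_pos hr, hr.ne']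
  obtain ⟨θ, hθ⟩ : ∃ θ : ℝ, (Circle.exp θ : ℂ) = (w - z) / (r : ℂ) := by
    refine ⟨arg ((w - z) / (r : ℂ)), ?_⟩
    have := Complex.norm_mul_exp_arg_mul_I ((w - z) / (r : ℂ))
    rw [hnorm] at this
    rw [Circle.coe_exp]
    simpa using this
  have ht : (AddCircle.toCircle ((θ : ℝ) : AddCircle (2 * Real.pi)) : ℂ) = (w - z) / (r : ℂ) := by
    rw [AddCircle.toCircle_apply_mk, ← hθ]
    congr 2
    field_simp
  have hr' : (r : ℂ) ≠ 0 := by exact_mod_cast hr.ne'
  have hw' : z + r * (AddCircle.toCircle ((θ : ℝ) : AddCircle (2 * Real.pi)) : ℂ) = w := by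
    rw [ht]; field_simp; ring
  have h3 := h2 ((θ : ℝ) : AddCircle (2 * Real.pi))
  rw [hw', one_mul] at h3
  have h4 : ‖g ((θ : ℝ) : AddCircle (2 * Real.pi)) - f ((θ : ℝ) : AddCircle (2 * Real.pi))‖ ≤ e := by
    have := ContinuousMap.dist_apply_le_dist (f := g) (g := f) ((θ : ℝ) : AddCircle (2 * Real.pi))
    rw [dist_eq_norm] at this
    linarith
  have h5 : g ((θ : ℝ) : AddCircle (2 * Real.pi)) = ((U w : ℝ) : ℂ) := by
    rw [hg]
    show ((U (z + r * (AddCircle.toCircle ((θ : ℝ) : AddCircle (2 * Real.pi)) : ℂ)) : ℝ) : ℂ) = _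
    rw [hw']
  rw [h5] at h4
  rw [h3]
  have h6 := Complex.abs_re_le_norm (((U w : ℝ) : ℂ) - f ((θ : ℝ) : AddCircle (2 * Real.pi)))
  rw [Complex.sub_re, Complex.ofReal_re, abs_sub_comm] at h6
  linarith

end Pool.Agent.TH304.RD

namespace Pool.Agent.TH308.RD

open MeasureTheory Set Complex Filter Topology Pool.Agent.TH304.RD InnerProductSpace

/-- **global submean inequality** -/
theorem Adm.submean {E : Set ℝ} {U : ℂ → ℝ} (h : Adm E U) (z : ℂ) {r : ℝ} (hr : 0 < r) :
    U z ≤ Real.circleAverage U z r := by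
  refine le_of_forall_pos_le_add ?_
  intro e0 he0
  set e : ℝ := e0 / 2 with he
  have hepos : 0 < e := by rw [he]; linarith
  obtain ⟨H, hH, hHU⟩ := approx_dirichlet h.cont z hr hepos
  have hHc : Continuous H := continuous_iff_continuousAt.2 (fun w => (hH w).1.continuousAt)
  have hsplit : ∀ w ∈ Metric.closedBall z r, w ∈ Metric.sphere z r ∨ dist w z < r := by
    intro w hw
    rcases lt_or_eq_of_le (Metric.mem_closedBall.1 hw) with h1 | h1
    · exact Or.inr h1
    · exact Or.inl h1
  have hHlow : ∀ w ∈ Metric.closedBall z r, -e ≤ H w := by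
    have h1 := maxprin (z := z) (r := r) (Φ := fun w => -H w - e) (by fun_prop) (by
      intro w hw
      rcases hsplit w hw with h2 | h2
      · left
        have h3 := abs_le.1 (hHU w h2)
        have h4 := h.nonneg w
        show -H w - e ≤ 0
        linarith [h3.1]
      · right
        exact ⟨h2, (hH w).neg.sub (harmonicAt_const e)⟩)
    intro w hw
    have := h1 w hw
    linarith
  have hmain := maxprin (z := z) (r := r) (Φ := fun w => U w - H w - e)
    (by have := h.cont; fun_prop) (by
      intro w hw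
      rcases hsplit w hw with h2 | h2
      · left
        have h3 := abs_le.1 (hHU w h2)
        show U w - H w - e ≤ 0
        linarith [h3.1]
      · by_cases hwE : w ∈ ((fun t : ℝ => (t : ℂ)) '' E)
        · left
          obtain ⟨x, hx, rfl⟩ := hwE
          have h3 := h.zero x hx
          have h4 := hHlow _ hw
          simp only at h4 ⊢
          rw [h3]
          linarith
        · right
          exact ⟨h2, ((h.harm w hwE).sub (hH w)).sub (harmonicAt_const e)⟩)
  have h1 := hmain z (Metric.mem_closedBall_self hr.le)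
  have h2 : Real.circleAverage H z r = H z :=
    InnerProductSpace.HarmonicOnNhd.circleAverage_eq (fun w _ => hH w)
  have h3 : Real.circleAverage H z r ≤ Real.circleAverage (fun w => U w + e) z r := by
    apply Real.circleAverage_mono
    · exact hHc.continuousOn.circleIntegrable'
    · exact (h.cont.add continuous_const).continuousOn.circleIntegrable'
    · intro w hw
      rw [abs_of_pos hr] at hw
      have h3 := abs_le.1 (hHU w hw)
      linarith [h3.2]
  have h4 : Real.circleAverage (fun w => U w + e) z r = Real.circleAverage U z r + e := by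
    rw [Real.circleAverage_fun_add h.cont.continuousOn.circleIntegrable'
      continuous_const.continuousOn.circleIntegrable', Real.circleAverage_const]
  rw [h4, h2] at h3
  linarith

end Pool.Agent.TH308.RD
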