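import Pool.Agent.TH308.RD.Defs

set_option autoImplicit false

/-!
The explicit periodic function `Uper` (Green function of the complement of periodic intervals),
for MP_cebbdc_an.
-/

namespace Pool.Agent.TH304.RD

open MeasureTheory Set Complex Filter Topology Pool.Agent.TH308.RD InnerProductSpace

/-- the semi-major axis -/
noncomputable def ga (q : ℂ) : ℝ := (‖q - 1‖ + ‖q + 1‖) / 2

lemma green_eq_ga (q : ℂ) : green q = Real.log (ga q + √(ga q ^ 2 - 1)) := rfl

lemma one_le_ga (q : ℂ) : 1 ≤ ga q := by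
  have h := norm_sub_le (q + 1) (q - 1)
  have h2 : (q + 1) - (q - 1) = 2 := by ring
  rw [h2] at h
  simp at h
  unfold ga
  linarith

lemma ga_continuous : Continuous ga := by
  unfold ga; fun_prop

lemma green_continuous : Continuous green := by
  have h : Continuous (fun q => ga q + √(ga q ^ 2 - 1)) := by
    have := ga_continuous
    fun_prop
  have h2 : Continuous (fun q => Real.log (ga q + √(ga q ^ 2 - 1))) := by
    apply h.log
    intro q
    have := one_le_ga q
    positivity
  exact h2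

lemma green_neg (q : ℂ) : green (-q) = green q := by
  have : ga (-q) = ga q := by
    unfold ga
    have e1 : ‖-q - 1‖ = ‖q + 1‖ := by
      rw [← norm_neg]; congr 1; ring
    have e2 : ‖-q + 1‖ = ‖q - 1‖ := by
      rw [← norm_neg]; congr 1; ring
    rw [e1, e2, add_comm]
  rw [green_eq_ga, this, ← green_eq_ga]

lemma green_conj (q : ℂ) : green ((starRingEnd ℂ) q) = green q := by
  have : ga ((starRingEnd ℂ) q) = ga q := by
    unfold ga
    have e1 : ‖(starRingEnd ℂ) q - 1‖ = ‖q - 1‖ := by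
      rw [← Complex.norm_conj]; congr 1; simp
    have e2 : ‖(starRingEnd ℂ) q + 1‖ = ‖q + 1‖ := by
      rw [← Complex.norm_conj]; congr 1; simp
    rw [e1, e2]
  rw [green_eq_ga, this, ← green_eq_ga]

lemma ga_real {x : ℝ} (hx : 1 ≤ |x|) : ga (x : ℂ) = |x| := by
  unfold ga
  have e1 : ‖(x : ℂ) - 1‖ = |x - 1| := by
    rw [← Real.norm_eq_abs, ← Complex.norm_real]; congr 1; push_cast; ring
  have e2 : ‖(x : ℂ) + 1‖ = |x + 1| := by
    rw [← Real.norm_eq_abs, ← Complex.norm_real]; congr 1; push_cast; ring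
  rw [e1, e2]
  rcases abs_cases x with ⟨h1, h2⟩ | ⟨h1, h2⟩
  · rw [abs_of_nonneg (by linarith), abs_of_nonneg (by linarith), h1]; ring
  · rw [abs_of_nonpos (by linarith), abs_of_nonpos (by linarith), h1]; ring

lemma ga_eq_one {x : ℝ} (hx : |x| ≤ 1) : ga (x : ℂ) = 1 := by
  unfold ga
  have e1 : ‖(x : ℂ) - 1‖ = |x - 1| := by
    rw [← Real.norm_eq_abs, ← Complex.norm_real]; congr 1; push_cast; ring
  have e2 : ‖(x : ℂ) + 1‖ = |x + 1| := by
    rw [← Real.norm_eq_abs, ← Complex.norm_real]; congr 1; push_cast; ring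
  rw [e1, e2]
  have := abs_le.1 hx
  rw [abs_of_nonpos (by linarith), abs_of_nonneg (by linarith)]; ring

lemma green_zero {x : ℝ} (hx : |x| ≤ 1) : green (x : ℂ) = 0 := by
  rw [green_eq_ga, ga_eq_one hx]; simp

/-- off the segment `[-1,1]` -/
def Off (q : ℂ) : Prop := q.im ≠ 0 ∨ 1 < |q.re|

lemma one_lt_ga {q : ℂ} (hq : Off q) : 1 < ga q := by
  rcases eq_or_ne q.im 0 with h | h
  · have h1 : 1 < |q.re| := by
      rcases hq with h2 | h2
      · exact absurd h h2
      · exact h2
    have h2 : q = (q.re : ℂ) := by apply Complex.ext <;> simp [h]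
    rw [h2, ga_real h1.le]; exact h1
  · have e1 : |q.re - 1| < ‖q - 1‖ := by
      have h1 : (q - 1).im ≠ 0 := by simpa using h
      have := Complex.abs_re_lt_norm.2 h1
      simpa using this
    have e2 : |q.re + 1| < ‖q + 1‖ := by
      have h1 : (q + 1).im ≠ 0 := by simpa using h
      have := Complex.abs_re_lt_norm.2 h1
      simpa using this
    have e3 : (2 : ℝ) ≤ |q.re - 1| + |q.re + 1| := by
      have h1 := neg_abs_le (q.re - 1)
      have h2 := le_abs_self (q.re + 1)
      linarith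
    unfold ga
    linarith

lemma green_pos {q : ℂ} (hq : Off q) : 0 < green q := by
  rw [green_eq_ga]
  apply Real.log_pos
  have := one_lt_ga hq
  have := Real.sqrt_nonneg (ga q ^ 2 - 1)
  linarith

/-- the Joukowski parametrisation -/
lemma green_jouk {w q : ℂ} (hw : 1 ≤ ‖w‖) (h : w ^ 2 + 1 = 2 * w * q) :
    green q = Real.log ‖w‖ := by
  have hw0 : 0 < ‖w‖ := by linarith
  have hwne : w ≠ 0 := by
    intro h0; rw [h0] at hw0; simp at hw0
  have e1 : ‖q - 1‖ = ‖w - 1‖ ^ 2 / (2 * ‖w‖) := by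
    have : q - 1 = (w - 1) ^ 2 / (2 * w) := by
      field_simp
      linear_combination -h
    rw [this, norm_div, norm_pow, norm_mul]; simp
  have e2 : ‖q + 1‖ = ‖w + 1‖ ^ 2 / (2 * ‖w‖) := by
    have : q + 1 = (w + 1) ^ 2 / (2 * w) := by
      field_simp
      linear_combination -h
    rw [this, norm_div, norm_pow, norm_mul]; simp
  have e3 : ‖w - 1‖ ^ 2 + ‖w + 1‖ ^ 2 = 2 * ‖w‖ ^ 2 + 2 := by
    simp only [← Complex.normSq_eq_norm_sq, Complex.normSq_apply]
    simp
    ring
  have e4 : ga q = (‖w‖ ^ 2 + 1) / (2 * ‖w‖) := by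
    unfold ga
    rw [e1, e2, ← add_div, e3]
    field_simp
  have e5 : √(ga q ^ 2 - 1) = (‖w‖ ^ 2 - 1) / (2 * ‖w‖) := by
    have h1 : ga q ^ 2 - 1 = ((‖w‖ ^ 2 - 1) / (2 * ‖w‖)) ^ 2 := by
      rw [e4]; field_simp; ring
    rw [h1, Real.sqrt_sq]
    apply div_nonneg
    · nlinarith
    · positivity
  rw [green_eq_ga, e5, e4]
  congr 1
  field_simp
  ring

lemma exists_sigma {q : ℂ} (hq : Off q) : ∃ σ : ℂ, σ ^ 2 = q ^ 2 - 1 ∧ 1 < ‖q + σ‖ := by
  obtain ⟨σ, hσ⟩ := IsAlgClosed.exists_pow_nat_eq (q ^ 2 - 1) (n := 2) (by norm_num)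
  have hprod : (q + σ) * (q - σ) = 1 := by linear_combination -hσ
  have hn : ‖q + σ‖ * ‖q - σ‖ = 1 := by rw [← norm_mul, hprod, norm_one]
  have hne : ‖q + σ‖ ≠ 1 := by
    intro h1
    -- then q = Re(q+σ)
    have h2 : q - σ = (starRingEnd ℂ) (q + σ) := by
      have h3 : (q + σ) * (starRingEnd ℂ) (q + σ) = 1 := by
        rw [Complex.mul_conj, Complex.normSq_eq_norm_sq, h1]; simp
      have h4 : q + σ ≠ 0 := by
        intro h0; rw [h0, norm_zero] at h1; norm_num at h1
      exact mul_left_cancel₀ h4 (hprod.trans h3.symm)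
    have h5 : q = (((q + σ).re : ℝ) : ℂ) := by
      have h6 := Complex.add_conj (q + σ)
      rw [← h2] at h6
      have h7 : (2 : ℂ) * q = 2 * (((q + σ).re : ℝ) : ℂ) := by
        rw [← show ((2 * (q + σ).re : ℝ) : ℂ) = 2 * (((q + σ).re : ℝ) : ℂ) by push_cast; ring, ← h6]
        ring
      exact mul_left_cancel₀ two_ne_zero h7
    have h8 : |(q + σ).re| ≤ 1 := h1 ▸ Complex.abs_re_le_norm (q + σ)
    rcases hq with h9 | h9
    · apply h9; rw [h5]; simp
    · rw [h5] at h9; simp only [Complex.ofReal_re] at h9; linarith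
  rcases lt_or_gt_of_ne hne with h1 | h1
  · refine ⟨-σ, by rw [neg_sq]; exact hσ, ?_⟩
    rw [← sub_eq_add_neg]
    by_contra h2
    push Not at h2
    have h3 : ‖q + σ‖ * ‖q - σ‖ < 1 := by
      calc ‖q + σ‖ * ‖q - σ‖ ≤ ‖q + σ‖ * 1 := by gcongr
        _ < 1 := by linarith
    linarith
  · exact ⟨σ, hσ, h1⟩

lemma off_sq_sub_ne {q : ℂ} (hq : Off q) : q ^ 2 - 1 ≠ 0 := by
  intro h
  have h1 : (q - 1) * (q + 1) = 0 := by linear_combination h
  rcases mul_eq_zero.1 h1 with h2 | h2
  · have : q = 1 := by linear_combination h2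
    subst this
    rcases hq with h3 | h3 <;> simp at h3
  · have : q = -1 := by linear_combination h2
    subst this
    rcases hq with h3 | h3 <;> simp at h3

/-- `green ∘ f` is harmonic where `f` is analytic and off the segment -/
lemma green_harm {f : ℂ → ℂ} {z0 : ℂ} (hf : AnalyticAt ℂ f z0) (hq : Off (f z0)) :
    HarmonicAt (fun z => green (f z)) z0 := by
  obtain ⟨σ, hσ, hσn⟩ := exists_sigma hq
  have hne := off_sq_sub_ne hq
  set b : ℂ → ℂ := fun z => (f z ^ 2 - 1) / (f z0 ^ 2 - 1) with hb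
  have hb0 : b z0 = 1 := by
    simp only [hb]; exact div_self hne
  have hbA : AnalyticAt ℂ b z0 := by
    simp only [hb]
    exact ((hf.pow 2).sub analyticAt_const).div analyticAt_const hne
  set w : ℂ → ℂ := fun z => f z + σ * (b z) ^ ((2 : ℕ) : ℂ)⁻¹ with hw
  have hwA : AnalyticAt ℂ w z0 := by
    simp only [hw]
    refine hf.add (analyticAt_const.mul (hbA.cpow analyticAt_const ?_))
    rw [hb0]; simp
  have hw0 : w z0 = f z0 + σ := by
    simp only [hw, hb0, Complex.one_cpow, mul_one]
  have hweq : ∀ z, w z ^ 2 + 1 = 2 * w z * f z := by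
    intro z
    have h1 : ((b z) ^ ((2 : ℕ) : ℂ)⁻¹) ^ 2 = b z := Complex.cpow_nat_inv_pow _ (by norm_num)
    have h2 : (w z - f z) ^ 2 = f z ^ 2 - 1 := by
      have h3 : w z - f z = σ * (b z) ^ ((2 : ℕ) : ℂ)⁻¹ := by simp only [hw]; ring
      rw [h3, mul_pow, h1, hσ]
      simp only [hb]
      field_simp
    linear_combination h2
  have hev : ∀ᶠ z in 𝓝 z0, 1 < ‖w z‖ := by
    have hc : ContinuousAt (fun z => ‖w z‖) z0 := hwA.continuousAt.norm
    apply hc.eventually_const_lt
    show 1 < ‖w z0‖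
    rw [hw0]; exact hσn
  have heq : (fun z => green (f z)) =ᶠ[𝓝 z0] (fun z => Real.log ‖w z‖) := by
    filter_upwards [hev] with z hz
    exact green_jouk hz.le (hweq z)
  rw [harmonicAt_congr_nhds heq]
  apply AnalyticAt.harmonicAt_log_norm hwA
  intro h0
  rw [hw0] at h0
  rw [h0] at hσn
  simp at hσn
  linarith

section

variable {δ : ℝ}

lemma s_pos (h0 : 0 < δ) (h1 : δ < 1) : 0 < Real.sin (Real.pi * δ / 2) := by
  apply Real.sin_pos_of_pos_of_lt_pi
  · positivity
  · nlinarith [Real.pi_pos]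

lemma s_lt_one (h0 : 0 < δ) (h1 : δ < 1) : Real.sin (Real.pi * δ / 2) < 1 := by
  have h2 : Real.sin (Real.pi * δ / 2) < Real.sin (Real.pi / 2) := by
    apply Real.sin_lt_sin_of_lt_of_le_pi_div_two
    · have := Real.pi_pos; nlinarith
    · exact le_rfl
    · have := Real.pi_pos; nlinarith
  rwa [Real.sin_pi_div_two] at h2

lemma cos_re (z : ℂ) : (Complex.cos (Real.pi * z)).re =
    Real.cos (Real.pi * z.re) * Real.cosh (Real.pi * z.im) := by
  have h : (Real.pi : ℂ) * z = ((Real.pi * z.re : ℝ) : ℂ) + ((Real.pi * z.im : ℝ) : ℂ) * I := by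
    conv_lhs => rw [← Complex.re_add_im z]
    push_cast; ring
  rw [h, Complex.cos_add_mul_I, ← Complex.ofReal_cos, ← Complex.ofReal_sin, ← Complex.ofReal_cosh,
    ← Complex.ofReal_sinh]
  simp only [Complex.sub_re, Complex.sub_im, Complex.mul_re, Complex.mul_im, Complex.ofReal_re,
    Complex.ofReal_im, Complex.I_re, Complex.I_im]
  ring

lemma cos_im (z : ℂ) : (Complex.cos (Real.pi * z)).im =
    -(Real.sin (Real.pi * z.re) * Real.sinh (Real.pi * z.im)) := by
  have h : (Real.pi : ℂ) * z = ((Real.pi * z.re : ℝ) : ℂ) + ((Real.pi * z.im : ℝ) : ℂ) * I := by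
    conv_lhs => rw [← Complex.re_add_im z]
    push_cast; ring
  rw [h, Complex.cos_add_mul_I, ← Complex.ofReal_cos, ← Complex.ofReal_sin, ← Complex.ofReal_cosh,
    ← Complex.ofReal_sinh]
  simp only [Complex.sub_re, Complex.sub_im, Complex.mul_re, Complex.mul_im, Complex.ofReal_re,
    Complex.ofReal_im, Complex.I_re, Complex.I_im]
  ring

lemma off_of_not_mem (h0 : 0 < δ) (h1 : δ < 1) {z : ℂ}
    (hz : z ∉ ((fun t : ℝ => (t : ℂ)) '' (Eper δ))) :
    Off (Complex.cos (Real.pi * z) / Real.sin (Real.pi * δ / 2)) := by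
  have hs := s_pos h0 h1
  have hs1 := s_lt_one h0 h1
  set s := Real.sin (Real.pi * δ / 2) with hsdef
  by_contra hcon
  unfold Off at hcon
  push Not at hcon
  obtain ⟨hc1, hc2⟩ := hcon
  rw [Complex.div_ofReal_im, cos_im] at hc1
  rw [Complex.div_ofReal_re, cos_re, abs_div, abs_of_pos hs, div_le_one hs] at hc2
  have hc3 : Real.sin (Real.pi * z.re) * Real.sinh (Real.pi * z.im) = 0 := by
    rcases div_eq_zero_iff.1 hc1 with h | h
    · linarith
    · exact absurd h hs.ne'
  rcases mul_eq_zero.1 hc3 with h | h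
  · -- sin = 0, |cos| = 1
    have h2 : |Real.cos (Real.pi * z.re)| = 1 := by
      have h3 := Real.sin_sq_add_cos_sq (Real.pi * z.re)
      rw [h] at h3
      have h4 : |Real.cos (Real.pi * z.re)| ^ 2 = 1 := by rw [sq_abs]; linarith
      have h5 := abs_nonneg (Real.cos (Real.pi * z.re))
      nlinarith
    rw [abs_mul, h2, one_mul] at hc2
    have h3 := Real.one_le_cosh (Real.pi * z.im)
    rw [abs_of_nonneg (by linarith)] at hc2
    linarith
  · rw [Real.sinh_eq_zero] at h
    have h2 : z.im = 0 := by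
      rcases mul_eq_zero.1 h with h3 | h3
      · exact absurd h3 Real.pi_ne_zero
      · exact h3
    apply hz
    refine ⟨z.re, ?_, ?_⟩
    · show |Real.cos (Real.pi * z.re)| ≤ s
      rw [h2] at hc2
      simpa using hc2
    · apply Complex.ext <;> simp [h2]

lemma eper_closed (δ : ℝ) : IsClosed (Eper δ) := by
  unfold Eper
  exact isClosed_le (by fun_prop) (by fun_prop)

end

end Pool.Agent.TH304.RD

namespace Pool.Agent.TH308.RD

open MeasureTheory Set Complex Filter Topology InnerProductSpace Pool.Agent.TH304.RD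

theorem Uper_period (δ : ℝ) (z : ℂ) : Uper δ (z + 1) = Uper δ z := by
  unfold Uper
  have h : Complex.cos (Real.pi * (z + 1)) = -Complex.cos (Real.pi * z) := by
    rw [mul_add, mul_one, Complex.cos_add_pi]
  rw [h, neg_div, green_neg]

theorem Uper_adm {δ : ℝ} (h0 : 0 < δ) (h1 : δ < 1) : Adm (Eper δ) (Uper δ) := by
  have hs := s_pos h0 h1
  have hs1 := s_lt_one h0 h1
  refine ⟨eper_closed δ, ?_, ?_, ?_, ?_, ?_, ?_⟩
  · unfold Uper
    have := green_continuous
    fun_prop
  · intro x hx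
    unfold Uper
    have e : Complex.cos (Real.pi * (x : ℂ)) / Real.sin (Real.pi * δ / 2)
        = ((Real.cos (Real.pi * x) / Real.sin (Real.pi * δ / 2) : ℝ) : ℂ) := by
      push_cast; rfl
    rw [e, green_zero, zero_div]
    rw [abs_div, abs_of_pos hs, div_le_one hs]
    exact hx
  · intro z hz
    unfold Uper
    exact div_pos (green_pos (off_of_not_mem h0 h1 hz)) Real.pi_pos
  · intro z hz
    have e1 : AnalyticAt ℂ (fun z : ℂ => Complex.cos (Real.pi * z) / Real.sin (Real.pi * δ / 2)) z := by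
      have : ((Real.sin (Real.pi * δ / 2) : ℝ) : ℂ) ≠ 0 := by exact_mod_cast hs.ne'
      have e3 : Differentiable ℂ (fun z : ℂ => Complex.cos (Real.pi * z) / Real.sin (Real.pi * δ / 2)) := by
        intro z
        have : DifferentiableAt ℂ (fun z : ℂ => Complex.cos (Real.pi * z)) z := by fun_prop
        exact this.div_const _
      exact e3.analyticAt z
    have e2 := (green_harm e1 (off_of_not_mem h0 h1 hz)).const_smul (c := Real.pi⁻¹)
    convert! e2 using 1
    funext v
    simp only [Uper, Pi.smul_apply, smul_eq_mul]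
    rw [div_eq_inv_mul]
  · intro z
    unfold Uper
    have h : Complex.cos (Real.pi * (starRingEnd ℂ) z) / Real.sin (Real.pi * δ / 2) =
        (starRingEnd ℂ) (Complex.cos (Real.pi * z) / Real.sin (Real.pi * δ / 2)) := by
      rw [map_div₀, ← Complex.cos_conj, map_mul, Complex.conj_ofReal, Complex.conj_ofReal]
    rw [h, green_conj]
  · -- normalisation
    set s := Real.sin (Real.pi * δ / 2) with hsdef
    set C : ℝ := Real.log 2 - Real.log s with hC
    have hls : Real.log s < 0 := Real.log_neg hs hs1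
    have hl2 : 0 < Real.log 2 := Real.log_pos (by norm_num)
    have hbound : ∀ y : ℝ, 0 < y → |Uper δ ((y : ℂ) * I) / y - 1| ≤ (C / Real.pi) * y⁻¹ := by
      intro y hy
      set q : ℝ := Real.cosh (Real.pi * y) / s with hq
      have hq1 : 1 < q := by
        rw [hq, lt_div_iff₀ hs]
        have := Real.one_le_cosh (Real.pi * y)
        linarith
      have e1 : Uper δ ((y : ℂ) * I) = green (q : ℂ) / Real.pi := by
        unfold Uper
        congr 2
        have : (Real.pi : ℂ) * ((y : ℂ) * I) = ((Real.pi * y : ℝ) : ℂ) * I := by push_cast; ring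
        rw [this, Complex.cos_mul_I, hq, ← Complex.ofReal_cosh, Complex.ofReal_div]
      have e2 : ga (q : ℂ) = q := by
        rw [ga_real (by rw [abs_of_pos (by linarith)]; exact hq1.le), abs_of_pos (by linarith)]
      have e3 : green (q : ℂ) = Real.log (q + √(q ^ 2 - 1)) := by rw [green_eq_ga, e2]
      have e4 : Real.log q ≤ green (q : ℂ) := by
        rw [e3]
        apply Real.log_le_log (by linarith)
        have := Real.sqrt_nonneg (q ^ 2 - 1)
        linarith
      have e5 : green (q : ℂ) ≤ Real.log (2 * q) := by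
        rw [e3]
        apply Real.log_le_log
        · have := Real.sqrt_nonneg (q ^ 2 - 1); linarith
        · have : √(q ^ 2 - 1) ≤ q := by
            rw [Real.sqrt_le_left (by linarith)]; linarith
          linarith
      have e6 : Real.log q = Real.log (Real.cosh (Real.pi * y)) - Real.log s := by
        rw [hq, Real.log_div (Real.cosh_pos _).ne' hs.ne']
      have e7 : Real.log (2 * q) = Real.log 2 + Real.log q := by
        rw [Real.log_mul (by norm_num) (by linarith)]
      have e8 : Real.pi * y - Real.log 2 ≤ Real.log (Real.cosh (Real.pi * y)) := by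
        have h2 : Real.exp (Real.pi * y) / 2 ≤ Real.cosh (Real.pi * y) := by
          rw [Real.cosh_eq]
          have := Real.exp_pos (-(Real.pi * y))
          linarith
        have h3 : Real.log (Real.exp (Real.pi * y) / 2) ≤ Real.log (Real.cosh (Real.pi * y)) :=
          Real.log_le_log (by positivity) h2
        rw [Real.log_div (Real.exp_pos _).ne' (by norm_num), Real.log_exp] at h3
        exact h3
      have e9 : Real.log (Real.cosh (Real.pi * y)) ≤ Real.pi * y := by
        have h2 : Real.cosh (Real.pi * y) ≤ Real.exp (Real.pi * y) := by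
          rw [Real.cosh_eq]
          have : Real.exp (-(Real.pi * y)) ≤ Real.exp (Real.pi * y) := by
            apply Real.exp_le_exp.2
            have : 0 < Real.pi * y := by positivity
            linarith
          linarith
        have h3 := Real.log_le_log (Real.cosh_pos _) h2
        rwa [Real.log_exp] at h3
      have e10 : |green (q : ℂ) - Real.pi * y| ≤ C := by
        rw [abs_le]
        constructor
        · rw [hC]; linarith
        · rw [hC]; linarith
      have e11 : Uper δ ((y : ℂ) * I) / y - 1 = (green (q : ℂ) - Real.pi * y) * (Real.pi⁻¹ * y⁻¹) := by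
        rw [e1]; field_simp
      rw [e11, abs_mul, abs_of_pos (show 0 < Real.pi⁻¹ * y⁻¹ by positivity)]
      calc |green (q : ℂ) - Real.pi * y| * (Real.pi⁻¹ * y⁻¹) ≤ C * (Real.pi⁻¹ * y⁻¹) := by gcongr
        _ = (C / Real.pi) * y⁻¹ := by ring
    have hlim : Tendsto (fun y : ℝ => (C / Real.pi) * y⁻¹) atTop (𝓝 0) := by
      have := tendsto_inv_atTop_zero.const_mul (C / Real.pi) (α := ℝ)
      simpa using this
    rw [tendsto_iff_norm_sub_tendsto_zero]
    refine squeeze_zero' (Eventually.of_forall fun y => norm_nonneg _) ?_ hlim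
    filter_upwards [eventually_gt_atTop 0] with y hy
    exact hbound y hy

theorem Uper_zero {δ : ℝ} (h0 : 0 < δ) (h1 : δ < 1) :
    Uper δ 0 = Real.log (Real.cot (Real.pi * δ / 4)) / Real.pi := by
  have hs := s_pos h0 h1
  have hs1 := s_lt_one h0 h1
  unfold Uper
  congr 1
  set s := Real.sin (Real.pi * δ / 2) with hsdef
  have e1 : Complex.cos (Real.pi * 0) / (s : ℂ) = ((1 / s : ℝ) : ℂ) := by
    simp
  have e2 : 1 ≤ 1 / s := by rw [le_div_iff₀ hs]; linarith
  have e3 : ga ((1 / s : ℝ) : ℂ) = 1 / s := by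
    rw [ga_real (by rw [abs_of_pos (by positivity)]; exact e2), abs_of_pos (by positivity)]
  rw [e1, green_eq_ga, e3]
  have hc : 0 < Real.cos (Real.pi * δ / 2) := by
    apply Real.cos_pos_of_mem_Ioo
    constructor
    · have := Real.pi_pos; nlinarith
    · have := Real.pi_pos; nlinarith
  have e4 : √((1 / s) ^ 2 - 1) = Real.cos (Real.pi * δ / 2) / s := by
    have h2 : (1 / s) ^ 2 - 1 = (Real.cos (Real.pi * δ / 2) / s) ^ 2 := by
      have := Real.sin_sq_add_cos_sq (Real.pi * δ / 2)
      rw [← hsdef] at this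
      field_simp
      linarith
    rw [h2, Real.sqrt_sq (by positivity)]
  rw [e4]
  congr 1
  rw [Real.cot_eq_cos_div_sin]
  have h4s : 0 < Real.sin (Real.pi * δ / 4) := by
    apply Real.sin_pos_of_pos_of_lt_pi
    · positivity
    · nlinarith [Real.pi_pos]
  have h5 : Real.pi * δ / 2 = 2 * (Real.pi * δ / 4) := by ring
  rw [hsdef, h5, Real.sin_two_mul, Real.cos_two_mul]
  have h6 : 0 < Real.cos (Real.pi * δ / 4) := by
    apply Real.cos_pos_of_mem_Ioo
    constructor
    · have := Real.pi_pos; nlinarith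
    · have := Real.pi_pos; nlinarith
  field_simp
  ring

theorem Eper_inter {δ : ℝ} (h0 : 0 < δ) (h1 : δ < 1) {x : ℝ} (hx : |x| ≤ 1 / 2) :
    x ∈ Eper δ ↔ (1 - δ) / 2 ≤ |x| := by
  have hpi := Real.pi_pos
  have e1 : Real.sin (Real.pi * δ / 2) = Real.cos (Real.pi * ((1 - δ) / 2)) := by
    rw [← Real.cos_pi_div_two_sub]; congr 1; ring
  have e2 : |Real.cos (Real.pi * x)| = Real.cos (Real.pi * |x|) := by
    have h2 : Real.cos (Real.pi * x) = Real.cos (Real.pi * |x|) := by
      rw [← Real.cos_abs (Real.pi * x), abs_mul, abs_of_pos hpi]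
    rw [h2, abs_of_nonneg]
    apply Real.cos_nonneg_of_mem_Icc
    constructor
    · have := abs_nonneg x; nlinarith
    · nlinarith
  show |Real.cos (Real.pi * x)| ≤ Real.sin (Real.pi * δ / 2) ↔ _
  rw [e1, e2, Real.strictAntiOn_cos.le_iff_ge]
  · constructor
    · intro h; exact le_of_mul_le_mul_left h hpi
    · intro h; gcongr
  · constructor
    · positivity
    · nlinarith
  · constructor
    · have : 0 ≤ (1 - δ) / 2 := by linarith
      positivity
    · nlinarith

theorem Eper_relDense {δ : ℝ} (h0 : 0 < δ) (h1 : δ < 1) : RelDense 1 δ (Eper δ) := by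
  intro a
  have hper : ∀ x : ℝ, x + 1 ∈ Eper δ ↔ x ∈ Eper δ := by
    intro x
    show |Real.cos (Real.pi * (x + 1))| ≤ _ ↔ |Real.cos (Real.pi * x)| ≤ _
    rw [mul_add, mul_one, Real.cos_add_pi, abs_neg]
  have hperf : Function.Periodic (fun x : ℝ => x ∈ Eper δ) 1 := fun x => propext (hper x)
  have hA : ∀ g : AddSubgroup.zmultiples (1 : ℝ), (fun x : ℝ => g +ᵥ x) ⁻¹' (Eper δ) = Eper δ := by
    rintro ⟨g, hg⟩
    obtain ⟨n, rfl⟩ := AddSubgroup.mem_zmultiples_iff.1 hg
    ext x
    have h2 := hperf.zsmul n x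
    have h3 : (⟨n • (1 : ℝ), hg⟩ : AddSubgroup.zmultiples (1 : ℝ)) +ᵥ x = x + n • (1 : ℝ) := by
      show n • (1 : ℝ) + x = _
      ring
    rw [mem_preimage, h3]
    exact iff_of_eq h2
  have hfd1 := isAddFundamentalDomain_Ioc (T := (1 : ℝ)) one_pos a volume
  have hfd2 := isAddFundamentalDomain_Ioc (T := (1 : ℝ)) one_pos (-1 / 2) volume
  have hmeas : MeasurableSet (Eper δ) := (eper_closed δ).measurableSet
  have hEq : volume (Eper δ ∩ Ioc a (a + 1)) = volume (Eper δ ∩ Ioc (-1 / 2) (-1 / 2 + 1)) :=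
    hfd1.measure_set_eq hfd2 hmeas hA
  calc ENNReal.ofReal δ = ENNReal.ofReal (δ / 2) + ENNReal.ofReal (δ / 2) := by
        rw [← ENNReal.ofReal_add (by linarith) (by linarith)]; congr 1; ring
    _ = volume (Ioc (-1 / 2 : ℝ) (-(1 - δ) / 2)) + volume (Ioc ((1 - δ) / 2) (1 / 2 : ℝ)) := by
        rw [Real.volume_Ioc, Real.volume_Ioc]; congr 2 <;> ring
    _ = volume (Ioc (-1 / 2 : ℝ) (-(1 - δ) / 2) ∪ Ioc ((1 - δ) / 2) (1 / 2 : ℝ)) := by
        rw [measure_union _ measurableSet_Ioc]
        rw [Set.disjoint_left]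
        rintro x ⟨_, hx1⟩ ⟨hx2, _⟩
        linarith
    _ ≤ volume (Eper δ ∩ Ioc (-1 / 2) (-1 / 2 + 1)) := by
        apply measure_mono
        rintro x (⟨hx1, hx2⟩ | ⟨hx1, hx2⟩)
        · have hxn : x ≤ 0 := by linarith
          refine ⟨(Eper_inter h0 h1 ?_).2 ?_, ?_, ?_⟩
          · rw [abs_of_nonpos hxn]; linarith
          · rw [abs_of_nonpos hxn]; linarith
          · exact hx1
          · linarith
        · have hxn : 0 ≤ x := by linarith
          refine ⟨(Eper_inter h0 h1 ?_).2 ?_, ?_, ?_⟩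
          · rw [abs_of_nonneg hxn]; linarith
          · rw [abs_of_nonneg hxn]; linarith
          · linarith
          · linarith
    _ = volume (Eper δ ∩ Ioc a (a + 1)) := hEq.symm
    _ ≤ volume (Eper δ ∩ Icc a (a + 1)) := by
        apply measure_mono
        exact inter_subset_inter_right _ Ioc_subset_Icc_self

end Pool.Agent.TH308.RD
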